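import Pool.Agent.TH641.ZSurf.Stab

set_option autoImplicit false
set_option linter.unusedSimpArgs false

/-! The hypotheses of the statement for the rank two form. -/

namespace Pool.Agent.TH641.ZSurf

open LaurentPolynomial Matrix Pool.Agent.W594.Herm

theorem hts : (T 1 : LaurentPolynomial ℤ) * T (-1) = 1 := by rw [← T_add]; simp

theorem blk_one : blk 1 = aa (T 1 : LaurentPolynomial ℤ) (T (-1)) := by
  have h2 : (T (2 * 1) : LaurentPolynomial ℤ) = T 1 ^ 2 := by rw [T_pow]; norm_num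
  have h3 : (T (-(2 * 1)) : LaurentPolynomial ℤ) = T (-1) ^ 2 := by rw [T_pow]; norm_num
  unfold blk aa
  rw [h2, h3]

/-- the involution -/
noncomputable def sig : LaurentPolynomial ℤ →+* LaurentPolynomial ℤ :=
  ((invert : LaurentPolynomial ℤ ≃ₐ[ℤ] LaurentPolynomial ℤ) :
    LaurentPolynomial ℤ →+* LaurentPolynomial ℤ)

theorem sig_T (n : ℤ) : sig (T n) = T (-n) := invert_T n

theorem sig_one : sig (T 1) = T (-1) := sig_T 1

theorem sig_neg_one : sig (T (-1)) = T 1 := by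
  have := sig_T (-1)
  rw [neg_neg] at this
  exact this

/-- the augmentation -/
noncomputable def eps : LaurentPolynomial ℤ →+* ℤ := eval₂ (RingHom.id ℤ) 1

theorem eps_T (n : ℤ) : eps (T n) = 1 := by simp [eps]

theorem sig2 : sig 2 = 2 := map_ofNat sig 2
theorem sig3 : sig 3 = 3 := map_ofNat sig 3
theorem sig4 : sig 4 = 4 := map_ofNat sig 4
theorem sig5 : sig 5 = 5 := map_ofNat sig 5
theorem sig6 : sig 6 = 6 := map_ofNat sig 6
theorem sig7 : sig 7 = 7 := map_ofNat sig 7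
theorem sig10 : sig 10 = 10 := map_ofNat sig 10
theorem sig12 : sig 12 = 12 := map_ofNat sig 12
theorem sig14 : sig 14 = 14 := map_ofNat sig 14
theorem sig16 : sig 16 = 16 := map_ofNat sig 16
theorem sig17 : sig 17 = 17 := map_ofNat sig 17
theorem sig22 : sig 22 = 22 := map_ofNat sig 22
theorem sig25 : sig 25 = 25 := map_ofNat sig 25
theorem sig30 : sig 30 = 30 := map_ofNat sig 30
theorem sig31 : sig 31 = 31 := map_ofNat sig 31
theorem sig41 : sig 41 = 41 := map_ofNat sig 41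
theorem sig131 : sig 131 = 131 := map_ofNat sig 131
theorem sig100 : sig 100 = 100 := map_ofNat sig 100
theorem eps4 : eps 4 = 4 := map_ofNat eps 4
theorem eps7 : eps 7 = 7 := map_ofNat eps 7
theorem eps10 : eps 10 = 10 := map_ofNat eps 10
theorem eps25 : eps 25 = 25 := map_ofNat eps 25

theorem aa_herm : ((aa (T 1 : LaurentPolynomial ℤ) (T (-1))).map sig)ᵀ = aa (T 1) (T (-1)) := by
  apply Matrix.ext
  intro i j
  fin_cases i <;> fin_cases j <;>
    simp only [aa, Matrix.transpose_apply, Matrix.map_apply, Matrix.of_apply, Matrix.cons_val',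
      Matrix.cons_val_zero, Matrix.cons_val_one, Matrix.cons_val_fin_one, map_add, map_sub,
      map_mul, map_pow, sig_one, sig_neg_one, sig2, sig3, sig4, sig5, sig6, sig7, sig10, sig12, sig14, sig16, sig17, sig22, sig25, sig30, sig31, sig41, sig131, sig100, Fin.zero_eta, Fin.mk_one,
      Fin.isValue] <;> ring

theorem pmap : ((blockify pA (pB (T 1 : LaurentPolynomial ℤ) (T (-1))) (pC (T 1) (T (-1)))
    (pD (T 1) (T (-1)))).map sig) = blockify pA (pB (T (-1)) (T 1)) (pC (T (-1)) (T 1))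
      (pD (T (-1)) (T 1)) := by
  rw [blockify_map]
  congr 1 <;>
  · apply Matrix.ext
    intro i j
    fin_cases i <;> fin_cases j <;>
      simp only [pA, pB, pC, pD, Matrix.map_apply, Matrix.of_apply, Matrix.cons_val',
      Matrix.cons_val_zero, Matrix.cons_val_one, Matrix.cons_val_fin_one, map_add, map_sub,
      map_mul, map_neg, map_one, map_pow, sig_one, sig_neg_one, sig2, sig3, sig4, sig5, sig6, sig7, sig10, sig12, sig14, sig16, sig17, sig22, sig25, sig30, sig31, sig41, sig131, sig100, Fin.zero_eta,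
      Fin.mk_one, Fin.isValue]

theorem stab (m : ℕ) (hm : m = 1) :
    ∃ (P : Matrix (Fin 2 ⊕ Fin 2 × Fin 1) (Fin 2 ⊕ Fin 2 × Fin m) (LaurentPolynomial ℤ))
      (P' : Matrix (Fin 2 ⊕ Fin 2 × Fin m) (Fin 2 ⊕ Fin 2 × Fin 1) (LaurentPolynomial ℤ)),
      P * P' = 1 ∧ P' * P = 1 ∧
      (P.map sig)ᵀ * Matrix.fromBlocks (blk 1) 0 0
        (Matrix.blockDiagonal (fun _ : Fin 1 => hh (T 1 : LaurentPolynomial ℤ) (T (-1)))) * P
        = Matrix.fromBlocks ((1 : Matrix (Fin 2) (Fin 2) ℤ).map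
            (Int.castRingHom (LaurentPolynomial ℤ))) 0 0
            (Matrix.blockDiagonal (fun _ : Fin m => hh (T 1 : LaurentPolynomial ℤ) (T (-1)))) := by
  subst hm
  refine ⟨blockify pA (pB (T 1) (T (-1))) (pC (T 1) (T (-1))) (pD (T 1) (T (-1))),
      blockify (qA (T 1) (T (-1))) (qB (T 1) (T (-1))) (qC (T 1) (T (-1))) (qD (T 1) (T (-1))),
      pq hts, qp hts, ?_⟩
  rw [pmap, blk_one, Matrix.map_one _ (map_zero _) (map_one _), blockDiagonal_one]
  exact isom hts

theorem inv_blk : (blk 1) * (blk 1)⁻¹ = 1 ∧ (blk 1)⁻¹ * (blk 1) = 1 := by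
  have h : IsUnit (blk 1).det := by rw [det_blk]; exact isUnit_one
  exact ⟨Matrix.mul_nonsing_inv _ h, Matrix.nonsing_inv_mul _ h⟩

theorem bdry :
    ∃ (P Q1 : Matrix (Fin 2 × Fin 0) (Fin 2) (LaurentPolynomial ℤ))
      (P' Q2 : Matrix (Fin 2) (Fin 2 × Fin 0) (LaurentPolynomial ℤ))
      (S1 M : Matrix (Fin 2) (Fin 2) (LaurentPolynomial ℤ))
      (S2 : Matrix (Fin 2 × Fin 0) (Fin 2 × Fin 0) (LaurentPolynomial ℤ)),
      P * (blk 1) = Matrix.blockDiagonal
        (fun _ : Fin 0 => hh (T 1 : LaurentPolynomial ℤ) (T (-1))) * Q1 ∧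
      P' * Matrix.blockDiagonal
        (fun _ : Fin 0 => hh (T 1 : LaurentPolynomial ℤ) (T (-1))) = (blk 1) * Q2 ∧
      P' * P = 1 + (blk 1) * S1 ∧
      P * P' = 1 + Matrix.blockDiagonal
        (fun _ : Fin 0 => hh (T 1 : LaurentPolynomial ℤ) (T (-1))) * S2 ∧
      ((blk 1).map (algebraMap (LaurentPolynomial ℤ) (FractionRing (LaurentPolynomial ℤ))))⁻¹
        - ((P.map sig)ᵀ).map
            (algebraMap (LaurentPolynomial ℤ) (FractionRing (LaurentPolynomial ℤ)))
          * ((Matrix.blockDiagonal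
            (fun _ : Fin 0 => hh (T 1 : LaurentPolynomial ℤ) (T (-1)))).map
              (algebraMap (LaurentPolynomial ℤ) (FractionRing (LaurentPolynomial ℤ))))⁻¹
          * P.map (algebraMap (LaurentPolynomial ℤ) (FractionRing (LaurentPolynomial ℤ)))
        = M.map (algebraMap (LaurentPolynomial ℤ) (FractionRing (LaurentPolynomial ℤ))) := by
  refine ⟨0, 0, 0, 0, -(blk 1)⁻¹, (blk 1)⁻¹, 0, by simp, by simp, ?_, ?_, ?_⟩
  · rw [Matrix.mul_neg, inv_blk.1]; simp
  · ext ⟨_, i⟩; exact i.elim0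
  · rw [Matrix.map_zero _ (map_zero _), Matrix.transpose_zero, Matrix.map_zero _ (map_zero _),
      Matrix.map_zero _ (map_zero _), Matrix.mul_zero, sub_zero]
    apply Matrix.inv_eq_right_inv
    rw [← Matrix.map_mul, inv_blk.1, Matrix.map_one _ (map_zero _) (map_one _)]

theorem aug :
    ∃ (P : Matrix (Fin 2) (Fin 2 ⊕ Fin 2 × Fin 0) ℤ)
      (P' : Matrix (Fin 2 ⊕ Fin 2 × Fin 0) (Fin 2) ℤ),
      P * P' = 1 ∧ P' * P = 1 ∧
      Pᵀ * (blk 1).map eps * P = Matrix.fromBlocks (1 : Matrix (Fin 2) (Fin 2) ℤ) 0 0 0 := by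
  have hA : (blk 1).map eps = !![25, 7; 7, 2] := by
    rw [blk_one]
    ext i j
    fin_cases i <;> fin_cases j <;>
      simp [aa, eps_T, eps4, eps7, eps10, eps25]
  rw [hA]
  refine ⟨(!![-1, 1; 4, -3] : Matrix (Fin 2) (Fin 2) ℤ).submatrix id
      (Equiv.sumEmpty (Fin 2) (Fin 2 × Fin 0)),
    (!![3, 1; 4, 1] : Matrix (Fin 2) (Fin 2) ℤ).submatrix
      (Equiv.sumEmpty (Fin 2) (Fin 2 × Fin 0)) id, ?_, ?_, ?_⟩
  · rw [Matrix.submatrix_mul_equiv]
    ext i j
    fin_cases i <;> fin_cases j <;> simp [Matrix.mul_apply, Fin.sum_univ_two]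
  · ext i j
    rcases i with i | ⟨_, i⟩
    · rcases j with j | ⟨_, j⟩
      · fin_cases i <;> fin_cases j <;> simp [Matrix.mul_apply, Fin.sum_univ_two, Matrix.one_apply]
      · exact j.elim0
    · exact i.elim0
  · ext i j
    rcases i with i | ⟨_, i⟩
    · rcases j with j | ⟨_, j⟩
      · fin_cases i <;> fin_cases j <;> simp [Matrix.mul_apply, Fin.sum_univ_two, Matrix.one_apply]
      · exact j.elim0
    · exact i.elim0

theorem not_iso :
    ¬ ∃ (P : Matrix (Fin 2) (Fin 2 ⊕ Fin 2 × Fin 0) (LaurentPolynomial ℤ))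
      (P' : Matrix (Fin 2 ⊕ Fin 2 × Fin 0) (Fin 2) (LaurentPolynomial ℤ)),
      P * P' = 1 ∧ P' * P = 1 ∧
      (P.map sig)ᵀ * (blk 1) * P
        = Matrix.fromBlocks ((1 : Matrix (Fin 2) (Fin 2) ℤ).map
            (Int.castRingHom (LaurentPolynomial ℤ))) 0 0
            (Matrix.blockDiagonal (fun _ : Fin 0 => hh (T 1 : LaurentPolynomial ℤ) (T (-1)))) := by
  rintro ⟨P, P', h1, h2, h3⟩
  have hz : NeZero 11 := ⟨by norm_num⟩
  refine not_isometric 11 1 ?_ 0 1 1 1 (one_mul 1) ?_ ?_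
  · intro a h0 h1 h
    rw [Int.cast_one, mul_one, ZMod.natCast_eq_zero_iff] at h
    have := Nat.le_of_dvd h0 h
    omega
  · rw [Matrix.map_one _ (map_zero _) (map_one _), conjG_one, one_mul]
  · set e1 : Fin 2 ⊕ Fin 0 ≃ Fin 2 := Equiv.sumEmpty (Fin 2) (Fin 0)
    set e2 : Fin 2 ⊕ Fin 0 ≃ Fin 2 ⊕ Fin 2 × Fin 0 :=
      Equiv.sumCongr (Equiv.refl _) (Equiv.equivOfIsEmpty _ _)
    have hAm : Am 0 1 = (blk 1).submatrix e1 e1 := by
      apply Matrix.ext
      rintro (i | i) (j | j)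
      · rfl
      · exact j.elim0
      · exact i.elim0
      · exact i.elim0
    have hU : P.submatrix e1 e2 * P'.submatrix e2 e1 = 1 := by
      rw [Matrix.submatrix_mul_equiv, h1, Matrix.submatrix_one_equiv]
    refine ⟨P.submatrix e1 e2, ?_, ?_⟩
    · have := congrArg Matrix.det hU
      rw [Matrix.det_mul, Matrix.det_one] at this
      exact IsUnit.of_mul_eq_one _ this
    · have hc : conjT (P.submatrix e1 e2) = ((P.map sig)ᵀ).submatrix e2 e1 := rfl
      rw [hc, hAm, Matrix.submatrix_mul_equiv, Matrix.submatrix_mul_equiv, h3]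
      apply Matrix.ext
      rintro (i | i) (j | j)
      · simp [e2, Matrix.one_apply]
      · exact j.elim0
      · exact i.elim0
      · exact i.elim0

end Pool.Agent.TH641.ZSurf
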