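import Pool.Agent.W594.Herm3

set_option autoImplicit false
set_option linter.unusedSimpArgs false

/-! An explicit stable isometry `A ⊕ H₂ ≅ I₂ ⊕ H₂` over `ℤ[t,t⁻¹]`, where
`A = (25, 7 + 10(t - t⁻¹); 7 - 10(t - t⁻¹), 10 - 4(t² + t⁻²))`. -/

namespace Pool.Agent.TH641.ZSurf

open LaurentPolynomial Matrix Pool.Agent.W594.Herm

/-- the 4 by 4 block matrix on `Fin 2 ⊕ Fin 2 × Fin 1` with given 2 by 2 blocks -/
def blockify {R : Type*} (A B C D : Matrix (Fin 2) (Fin 2) R) :
    Matrix (Fin 2 ⊕ Fin 2 × Fin 1) (Fin 2 ⊕ Fin 2 × Fin 1) R :=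
  Matrix.fromBlocks A (B.submatrix id Prod.fst) (C.submatrix Prod.fst id)
    (D.submatrix Prod.fst Prod.fst)

theorem blockDiagonal_one {R : Type*} [Zero R] (D : Matrix (Fin 2) (Fin 2) R) :
    Matrix.blockDiagonal (fun _ : Fin 1 => D) = D.submatrix Prod.fst Prod.fst := by
  ext ⟨i, a⟩ ⟨j, b⟩
  rw [Matrix.blockDiagonal_apply, if_pos (Subsingleton.elim _ _)]
  rfl

theorem sub_mul_sub {R : Type*} [CommRing R] {α β : Type*} (A : Matrix α (Fin 2) R)
    (B : Matrix (Fin 2) β R) :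
    (A.submatrix id Prod.fst : Matrix α (Fin 2 × Fin 1) R) *
      (B.submatrix Prod.fst id : Matrix (Fin 2 × Fin 1) β R) = A * B := by
  ext i j
  rw [Matrix.mul_apply, Matrix.mul_apply, Fintype.sum_prod_type]
  simp

theorem blockify_mul {R : Type*} [CommRing R] (A B C D A' B' C' D' : Matrix (Fin 2) (Fin 2) R) :
    blockify A B C D * blockify A' B' C' D' =
      blockify (A * A' + B * C') (A * B' + B * D') (C * A' + D * C') (C * B' + D * D') := by
  unfold blockify
  rw [Matrix.fromBlocks_multiply]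
  congr 1

theorem blockify_one {R : Type*} [CommRing R] :
    blockify (1 : Matrix (Fin 2) (Fin 2) R) 0 0 1 = 1 := by
  unfold blockify
  rw [← Matrix.fromBlocks_one]
  congr 1
  ext ⟨i, a⟩ ⟨j, b⟩
  rw [Subsingleton.elim a b]
  simp [Matrix.one_apply, Prod.ext_iff]

theorem blockify_map {R S : Type*} (f : R → S) (A B C D : Matrix (Fin 2) (Fin 2) R) :
    (blockify A B C D).map f = blockify (A.map f) (B.map f) (C.map f) (D.map f) := by
  unfold blockify
  rw [Matrix.fromBlocks_map]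
  rfl

theorem blockify_transpose {R : Type*} (A B C D : Matrix (Fin 2) (Fin 2) R) :
    (blockify A B C D)ᵀ = blockify Aᵀ Cᵀ Bᵀ Dᵀ := by
  unfold blockify
  rw [Matrix.fromBlocks_transpose]
  rfl

section
variable {R : Type*} [CommRing R] (t s : R)

/-- upper left block of the isometry -/
def pA : Matrix (Fin 2) (Fin 2) R := !![-1, 1; 4, -3]
/-- upper right block of the isometry -/
def pB : Matrix (Fin 2) (Fin 2) R :=
  !![10 * t + 7 - 17 * s, 2 * t ^ 2 + 3 * t - 2 - 3 * s; -25 + 25 * s, -5 * t + 5 * s]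
/-- lower left block of the isometry -/
def pC : Matrix (Fin 2) (Fin 2) R := !![4, -3; 16 * t + 22 + 6 * s, -12 * t - 14 - 2 * s]
/-- lower right block of the isometry -/
def pD : Matrix (Fin 2) (Fin 2) R :=
  !![25 * s, 4 + 5 * s; 100 + 131 * s + 30 * s ^ 2, 16 * t + 41 + 31 * s + 6 * s ^ 2]

/-- upper left block of the inverse -/
def qA : Matrix (Fin 2) (Fin 2) R :=
  !![-40 * t + 3 + 40 * s, -16 * t ^ 2 - 10 * t + 33 + 10 * s - 16 * s ^ 2;
    30 * t + 4 - 30 * s, 12 * t ^ 2 + 10 * t - 23 - 10 * s + 12 * s ^ 2]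
/-- upper right block of the inverse -/
def qB : Matrix (Fin 2) (Fin 2) R :=
  !![-6 * t - 16 + 6 * s + 16 * s ^ 2, 4 * t - 4; 2 * t + 12 - 2 * s - 12 * s ^ 2, -3 * t + 3]
/-- lower left block of the inverse -/
def qC : Matrix (Fin 2) (Fin 2) R :=
  !![50 * t ^ 2 + 90 * t + 40, 20 * t ^ 3 + 50 * t ^ 2 + 21 * t - 25 - 16 * s;
    -250 * t - 250, -100 * t ^ 2 - 170 * t + 31 + 100 * s]
/-- lower right block of the inverse -/
def qD : Matrix (Fin 2) (Fin 2) R :=
  !![6 * t ^ 2 + 31 * t + 41 + 16 * s, -5 * t ^ 2 - 4 * t; -30 * t - 131 - 100 * s, 25 * t]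

/-- the rank two form -/
def aa : Matrix (Fin 2) (Fin 2) R :=
  !![25, 7 + 10 * (t - s); 7 - 10 * (t - s), 10 - 4 * (t ^ 2 + s ^ 2)]
/-- the form `H₂` -/
def hh : Matrix (Fin 2) (Fin 2) R := !![0, t - 1; s - 1, 0]

variable {t s}

theorem pq (h : t * s = 1) :
    blockify pA (pB t s) (pC t s) (pD t s) * blockify (qA t s) (qB t s) (qC t s) (qD t s) = 1 := by
  rw [blockify_mul, ← blockify_one]
  congr 1 <;>
  · ext i j
    fin_cases i <;> fin_cases j <;>
      simp [pA, pB, pC, pD, qA, qB, qC, qD, Matrix.mul_apply, Fin.sum_univ_two] <;> grind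

theorem qp (h : t * s = 1) :
    blockify (qA t s) (qB t s) (qC t s) (qD t s) * blockify pA (pB t s) (pC t s) (pD t s) = 1 := by
  rw [blockify_mul, ← blockify_one]
  congr 1 <;>
  · ext i j
    fin_cases i <;> fin_cases j <;>
      simp [pA, pB, pC, pD, qA, qB, qC, qD, Matrix.mul_apply, Fin.sum_univ_two] <;> grind

theorem isom (h : t * s = 1) :
    (blockify pA (pB s t) (pC s t) (pD s t))ᵀ * blockify (aa t s) 0 0 (hh t s) *
      blockify pA (pB t s) (pC t s) (pD t s) = blockify 1 0 0 (hh t s) := by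
  rw [blockify_transpose, blockify_mul, blockify_mul]
  congr 1 <;>
  · ext i j
    fin_cases i <;> fin_cases j <;>
      simp [pA, pB, pC, pD, aa, hh, Matrix.mul_apply, Fin.sum_univ_two] <;> grind

end

end Pool.Agent.TH641.ZSurf
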